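import Mathlib

/-!
# Colouring unit circular arcs with max-load many colours
-/

namespace Pool.Agent.Results.MP_7d4b8e_co.UnitArcsMaxLoad

/-- The unit arc of the circle `ℝ / lam ℤ` starting at `x`: the image of `[x, x + 1)`. -/
def arc (lam x : ℝ) : Set (AddCircle lam) :=
  (fun t : ℝ => (t : AddCircle lam)) '' Set.Ico x (x + 1)

/-- The load of a family of unit arcs (given by their starting points) at the point `p`. -/
noncomputable def load (lam : ℝ) {ι : Type*} (a : ι → ℝ) (p : AddCircle lam) : ℕ :=
  Nat.card {i : ι // p ∈ arc lam (a i)}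

/-- The max load of a family of unit arcs. -/
noncomputable def maxLoad (lam : ℝ) {ι : Type*} (a : ι → ℝ) : ℕ :=
  ⨆ p : AddCircle lam, load lam a p

lemma load_le_card {lam : ℝ} {ι : Type*} [Finite ι] (a : ι → ℝ) (p : AddCircle lam) :
    load lam a p ≤ Nat.card ι := by
  unfold load
  exact Nat.card_le_card_of_injective (fun i => i.1) Subtype.val_injective

lemma load_le_maxLoad {lam : ℝ} {ι : Type*} [Finite ι] (a : ι → ℝ) (p : AddCircle lam) :
    load lam a p ≤ maxLoad lam a := by
  unfold maxLoad
  refine le_ciSup (f := fun p => load lam a p) ⟨Nat.card ι, ?_⟩ p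
  rintro _ ⟨q, rfl⟩
  exact load_le_card a q

lemma coe_eq_iff {lam x y : ℝ} :
    (x : AddCircle lam) = (y : AddCircle lam) ↔ ∃ n : ℤ, x = y + n * lam := by
  have : (x : AddCircle lam) = (y : AddCircle lam) ↔ ((x - y : ℝ) : AddCircle lam) = 0 := by
    rw [AddCircle.coe_sub, sub_eq_zero]
  rw [this, AddCircle.coe_eq_zero_iff]
  constructor
  · rintro ⟨n, hn⟩
    refine ⟨n, ?_⟩
    simp only [zsmul_eq_mul] at hn
    linarith
  · rintro ⟨n, hn⟩
    refine ⟨n, ?_⟩
    simp only [zsmul_eq_mul]
    linarith

lemma mem_arc_iff {lam x y : ℝ} :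
    (y : AddCircle lam) ∈ arc lam x ↔ ∃ n : ℤ, x ≤ y + n * lam ∧ y + n * lam < x + 1 := by
  unfold arc
  constructor
  · rintro ⟨t, ht, hty⟩
    obtain ⟨n, hn⟩ := coe_eq_iff.1 hty
    exact ⟨n, by rw [← hn]; exact ht.1, by rw [← hn]; exact ht.2⟩
  · rintro ⟨n, h1, h2⟩
    exact ⟨y + n * lam, ⟨h1, h2⟩, coe_eq_iff.2 ⟨n, rfl⟩⟩

lemma inter_arc {lam x y : ℝ} (h : (arc lam x ∩ arc lam y).Nonempty) :
    ∃ n : ℤ, x - 1 < y + n * lam ∧ y + n * lam < x + 1 := by
  obtain ⟨p, ⟨t, ht, htp⟩, ⟨u, hu, hup⟩⟩ := h
  obtain ⟨n, hn⟩ := coe_eq_iff.1 (htp.trans hup.symm)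
  refine ⟨n, ?_, ?_⟩
  · have := ht.1; have := hu.2; linarith
  · have := ht.2; have := hu.1; linarith

/-- Cyclic colouring: if the number of arcs is a multiple of `L` and all loads are at most `L`,
then the arcs can be coloured with `L` colours. -/
lemma cyclic {lam : ℝ} (hlam : 2 ≤ lam) {κ : Type*} [Fintype κ] (a : κ → ℝ) (L : ℕ)
    (hL : 0 < L) (hload : ∀ p, load lam a p ≤ L) (hdvd : L ∣ Fintype.card κ) :
    ∃ c : κ → Fin L, ∀ i j, i ≠ j → (arc lam (a i) ∩ arc lam (a j)).Nonempty → c i ≠ c j := by
  classical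
  have hpos : 0 < lam := by linarith
  -- representatives in `[0, lam)`
  let r : κ → ℝ := fun i => toIcoMod hpos 0 (a i)
  have hr : ∀ i, 0 ≤ r i ∧ r i < lam := by
    intro i
    have := toIcoMod_mem_Ico hpos 0 (a i)
    simpa using this
  have hra : ∀ i, ∃ n : ℤ, a i = r i + n * lam := by
    intro i
    refine ⟨toIcoDiv hpos 0 (a i), ?_⟩
    have := toIcoMod_add_toIcoDiv_zsmul hpos 0 (a i)
    simp only [zsmul_eq_mul] at this
    exact this.symm
  -- membership in terms of representatives
  have hmem : ∀ i (y : ℝ), (∃ n : ℤ, r i ≤ y + n * lam ∧ y + n * lam < r i + 1) →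
      (y : AddCircle lam) ∈ arc lam (a i) := by
    rintro i y ⟨n, h1, h2⟩
    obtain ⟨m, hm⟩ := hra i
    refine mem_arc_iff.2 ⟨n + m, ?_, ?_⟩
    · rw [hm]; push_cast; linarith
    · rw [hm]; push_cast; linarith
  -- sort
  obtain ⟨N, hN⟩ : ∃ N, N = Fintype.card κ := ⟨_, rfl⟩
  rw [← hN] at hdvd
  obtain ⟨e, hmono⟩ : ∃ e : Fin N ≃ κ, Monotone (r ∘ e) := by
    let e0 : Fin N ≃ κ := (finCongr hN).trans (Fintype.equivFin κ).symm
    refine ⟨(Tuple.sort (r ∘ e0)).trans e0, ?_⟩
    have := Tuple.monotone_sort (r ∘ e0)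
    simpa [Function.comp_def] using this
  -- counting
  have hcount : ∀ (S : Finset (Fin N)) (y : ℝ),
      (∀ m ∈ S, (y : AddCircle lam) ∈ arc lam (a (e m))) → S.card ≤ L := by
    intro S y hS
    refine le_trans ?_ (hload (y : AddCircle lam))
    unfold load
    have : S.card = Nat.card S := by simp
    rw [this]
    refine Nat.card_le_card_of_injective
      (fun m => ⟨e m.1, hS m.1 m.2⟩ : S → {i : κ // (y : AddCircle lam) ∈ arc lam (a i)}) ?_
    intro m m' hmm
    have := congrArg Subtype.val hmm
    exact Subtype.ext (e.injective this)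
  -- the key claim
  have key : ∀ m m' : Fin N, m < m' → (m : ℕ) % L = (m' : ℕ) % L →
      ¬ (arc lam (a (e m)) ∩ arc lam (a (e m'))).Nonempty := by
    intro m m' hmm hmod hne
    obtain ⟨n, hn1, hn2⟩ := inter_arc hne
    obtain ⟨u, hu⟩ := hra (e m)
    obtain ⟨v, hv⟩ := hra (e m')
    have hx := hr (e m)
    have hy := hr (e m')
    have hxy : r (e m) ≤ r (e m') := hmono hmm.le
    set x := r (e m) with hxdef
    set y := r (e m') with hydef
    -- `y + k lam ∈ (x - 1, x + 1)`
    obtain ⟨k, hk1, hk2⟩ : ∃ k : ℤ, x - 1 < y + k * lam ∧ y + k * lam < x + 1 := by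
      refine ⟨n + v - u, ?_, ?_⟩
      · push_cast; rw [hu, hv] at hn1; linarith
      · push_cast; rw [hu, hv] at hn2; linarith
    have hdvd2 : L ∣ (m' : ℕ) - m := (Nat.modEq_iff_dvd' (le_of_lt hmm)).1 hmod
    have hmm' : (m : ℕ) < m' := hmm
    have hLe : L ≤ (m' : ℕ) - m := Nat.le_of_dvd (by omega) hdvd2
    have hk0 : k ≤ 0 := by
      by_contra hcon
      push Not at hcon
      have : (1 : ℝ) ≤ (k : ℝ) := by exact_mod_cast hcon
      nlinarith
    have hk3 : -1 ≤ k := by
      by_contra hcon
      push Not at hcon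
      have : (k : ℝ) ≤ -2 := by exact_mod_cast (by omega : k ≤ -2)
      nlinarith
    rcases (by omega : k = 0 ∨ k = -1) with rfl | rfl
    · -- all arcs from `m` to `m'` contain `y`
      have hc := hcount (Finset.Icc m m') y (by
        intro j hj
        rw [Finset.mem_Icc] at hj
        refine hmem (e j) y ⟨0, ?_, ?_⟩
        · have : r (e j) ≤ y := hmono hj.2
          simpa using this
        · have : x ≤ r (e j) := hmono hj.1
          push_cast at hk1 hk2 ⊢
          linarith)
      rw [Fin.card_Icc] at hc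
      omega
    · -- all arcs with index at least `m'` or at most `m` contain `x`
      push_cast at hk1 hk2
      have hc := hcount (Finset.Iic m ∪ Finset.Ici m') x (by
        intro j hj
        rw [Finset.mem_union, Finset.mem_Iic, Finset.mem_Ici] at hj
        have hj0 := hr (e j)
        rcases hj with hj | hj
        · have h1 : r (e j) ≤ x := hmono hj
          refine hmem (e j) x ⟨0, ?_, ?_⟩
          · simpa using h1
          · push_cast
            linarith
        · have h1 : y ≤ r (e j) := hmono hj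
          refine hmem (e j) x ⟨1, ?_, ?_⟩
          · push_cast; linarith
          · push_cast; linarith)
      rw [Finset.card_union_of_disjoint (by
        rw [Finset.disjoint_left]
        intro j hj hj'
        rw [Finset.mem_Iic] at hj
        rw [Finset.mem_Ici] at hj'
        exact absurd (hj'.trans hj) (not_le.2 hmm)), Fin.card_Iic, Fin.card_Ici] at hc
      have hm'N := m'.2
      have hd3 : L ∣ N - ((m' : ℕ) - m) := Nat.dvd_sub hdvd hdvd2
      have hLe3 : L ≤ N - ((m' : ℕ) - m) := Nat.le_of_dvd (by omega) hd3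
      omega
  refine ⟨fun i => ⟨(e.symm i : ℕ) % L, Nat.mod_lt _ hL⟩, ?_⟩
  intro i j hij hne heq
  have hmod : (e.symm i : ℕ) % L = (e.symm j : ℕ) % L := by
    simpa using congrArg Fin.val heq
  rcases lt_trichotomy (e.symm i) (e.symm j) with h | h | h
  · exact key _ _ h hmod (by simpa using hne)
  · exact hij (e.symm.injective h)
  · refine key _ _ h hmod.symm ?_
    rw [Set.inter_comm]
    simpa using hne

/-- **Colouring unit circular arcs with max-load many colours.**  Let `lam ≥ 2`, let `a` be a
finite family of unit arcs on the circle of circumference `lam` with max load `L`, and let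
`k ≥ L - 1`.  If `k` unit arcs can be added without raising the max load, then the arcs of the
family `a` can be properly coloured with `L` colours. -/
theorem result (lam : ℝ) (hlam : 2 ≤ lam) {ι : Type*} [Finite ι] (a : ι → ℝ) (L : ℕ)
    (_hL : maxLoad lam a = L) (k : ℕ) (hk : L ≤ k + 1) (b : Fin k → ℝ)
    (hab : maxLoad lam (Sum.elim a b) = L) :
    ∃ c : ι → Fin L, ∀ i j : ι, i ≠ j → (arc lam (a i) ∩ arc lam (a j)).Nonempty →
      c i ≠ c j := by
  classical
  have : Fintype ι := Fintype.ofFinite ι
  have hload : ∀ p, load lam (Sum.elim a b) p ≤ L := by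
    intro p
    rw [← hab]
    exact load_le_maxLoad _ p
  rcases Nat.eq_zero_or_pos L with rfl | hLpos
  · -- no arcs at all
    have hemp : IsEmpty ι := by
      by_contra hne
      rw [not_isEmpty_iff] at hne
      obtain ⟨i⟩ := hne
      have h1 := hload ((a i : ℝ) : AddCircle lam)
      unfold load at h1
      have h2 : Nat.card {j : ι ⊕ Fin k // ((a i : ℝ) : AddCircle lam) ∈
          arc lam (Sum.elim a b j)} = 0 := by omega
      rw [Nat.card_eq_zero] at h2
      rcases h2 with h2 | h2
      · refine h2.elim ⟨Sum.inl i, ?_⟩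
        exact ⟨a i, ⟨le_refl _, by simp⟩, rfl⟩
      · exact h2.not_finite inferInstance
    exact ⟨fun i => (hemp.false i).elim, fun i => (hemp.false i).elim⟩
  · -- add `j < L` arcs to make the number of arcs a multiple of `L`
    obtain ⟨j, hjL, hj⟩ : ∃ j, j ≤ k ∧ L ∣ Fintype.card ι + j := by
      refine ⟨(L - Fintype.card ι % L) % L, ?_, ?_⟩
      · have := Nat.mod_lt (L - Fintype.card ι % L) hLpos
        omega
      · rcases Nat.eq_zero_or_pos (Fintype.card ι % L) with h | h
        · rw [h, Nat.sub_zero, Nat.mod_self, add_zero]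
          exact Nat.dvd_of_mod_eq_zero h
        · have hlt := Nat.mod_lt (Fintype.card ι) hLpos
          rw [Nat.mod_eq_of_lt (by omega)]
          have := Nat.mod_add_div (Fintype.card ι) L
          refine ⟨Fintype.card ι / L + 1, ?_⟩
          rw [mul_add, mul_one]
          omega
    let b' : Fin j → ℝ := fun t => b (Fin.castLE hjL t)
    have hload' : ∀ p, load lam (Sum.elim a b') p ≤ L := by
      intro p
      refine le_trans ?_ (hload p)
      unfold load
      refine Nat.card_le_card_of_injective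
        (fun x => ⟨Sum.map id (Fin.castLE hjL) x.1, ?_⟩) ?_
      · rcases x with ⟨x | x, hx⟩
        · simpa using hx
        · simpa [b'] using hx
      · intro x y hxy
        have h1 := congrArg Subtype.val hxy
        have h2 : Function.Injective (Sum.map (id : ι → ι) (Fin.castLE hjL)) :=
          Sum.map_injective.2 ⟨Function.injective_id, Fin.castLE_injective hjL⟩
        exact Subtype.ext (h2 h1)
    obtain ⟨c, hc⟩ := cyclic hlam (Sum.elim a b') L hLpos hload' (by
      simpa [Fintype.card_sum] using hj)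
    refine ⟨fun i => c (Sum.inl i), fun i i' hii hne => ?_⟩
    exact hc (Sum.inl i) (Sum.inl i') (by simpa using hii) (by simpa using hne)

end Pool.Agent.Results.MP_7d4b8e_co.UnitArcsMaxLoad
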